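import Pool.Agent.H112R2.Main
import Pool.Agent.X164.PC.Growth
set_option autoImplicit false

/-! The structure extracted from the set. -/

namespace Pool.Agent.X164.PC

open Finset H112
open scoped Pointwise

variable {G : Type*} [AddCommGroup G]

theorem core [AddGroup.FG G] [DecidableEq G] {K : ℝ} {A : Finset G} (hA : A.Nonempty)
    (hK : ((A + A).card : ℝ) ≤ K * A.card) (hK1 : 1 ≤ K) {J : ℕ} (hJ : 1 ≤ J) (j : ℕ)
    {κ b D ε : ℝ} (hκ : κ = Real.log (2 * K))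
    (hb : 2 * κ * (2 * j + 2) * (1 + 1 / (J : ℝ)) ^ (2 * j + 1) ≤ b) (hD : D = 2 * J * κ)
    (hε : ε = b / 2 ^ j)
    (h4 : (1 / 4 : ℝ) ^ (2 ^ j) ≤ Real.exp (-(2 * b + 2 * Real.log K + 2 * D)) / 4) :
    ∃ (S : Set (G →+ UnitAddCircle)) (E : Finset G), E ⊆ A ∧ E.Nonempty ∧
      (A.card : ℝ) ≤ Real.exp (2 * D + 1) * E.card ∧
      (∀ x ∈ E, ∀ y ∈ E, x - y ∈ bohr S (4 * Real.sqrt ε)) ∧
      (bohr S (1 / 6)).Finite ∧
      ((bohr S (1 / 6)).ncard : ℝ) ≤ (8 * Real.exp (2 * b + 2 * Real.log K + 2 * D)) * A.card := by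
  classical
  have hκ0 : 0 ≤ κ := by
    rw [hκ]; exact Real.log_nonneg (by linarith)
  obtain ⟨p₁, p₂, hp₁, hp₂, hs₁, hs₂, hH₁, hH₂, hgrow⟩ :=
    good_pair hA hK (J := J) (I := 2 * j + 1) hJ
  set q := p₁ * p₂ with hq
  have hqlaw : Law q := hp₁.mul hp₂
  rw [← hκ] at hH₁ hH₂ hgrow
  have hD₁ : Real.log A.card - D ≤ H p₁ := by
    rw [hD]
    exact hH₁
  have hn1 : 1 ≤ 2 ^ j := Nat.one_le_two_pow
  have hbase : (1 : ℝ) ≤ 1 + 1 / (J : ℝ) := by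
    have : (0 : ℝ) ≤ 1 / (J : ℝ) := by positivity
    linarith
  -- growth bound at 2^(2j+1)
  have hg1 : H (q ^ (2 * 2 ^ j * 2 ^ j)) ≤ (H p₁ + H p₂) / 2 + b := by
    have e1 : 2 * 2 ^ j * 2 ^ j = 2 ^ (2 * j + 1) := by ring
    rw [e1]
    refine (hgrow (2 * j + 1) le_rfl).trans ?_
    have e2 : 2 * κ * (((2 * j + 1 : ℕ) : ℝ) + 1) = 2 * κ * (2 * j + 2) := by
      push_cast
      ring
    rw [e2]
    linarith
  have hsz := bohr_size hA hK hp₁ hp₂ hs₁ hs₂ hD₁ (n := 2 ^ j) (m := 2 ^ j) hn1 hn1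
    (b := b) hg1 h4
  -- near invariance
  have hinc : H (q ^ (2 ^ j + 1)) - H q ≤ ((2 ^ j : ℕ) : ℝ) * ε := by
    have h1 : H (q ^ (2 ^ j + 1)) ≤ H (q ^ (2 ^ (j + 1))) := by
      have e1 : q ^ (2 ^ (j + 1)) = q ^ (2 ^ j + 1) * q ^ (2 ^ j - 1) := by
        rw [← pow_add]; congr 1
        have : 2 ^ (j + 1) = 2 ^ j + 2 ^ j := by ring
        omega
      rw [e1]
      exact H_le_mul (hqlaw.pow _) (hqlaw.pow _)
    have h2 := hgrow (j + 1) (by omega)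
    have h3 : (H p₁ + H p₂) / 2 ≤ H q := by
      have a1 : H p₁ ≤ H q := H_le_mul hp₁ hp₂
      have a2 : H p₂ ≤ H q := by
        rw [hq, mul_comm]; exact H_le_mul hp₂ hp₁
      linarith
    have h4' : ((2 ^ j : ℕ) : ℝ) * ε = b := by
      rw [hε]; push_cast
      field_simp
    rw [h4']
    have h5 : 2 * κ * (((j + 1 : ℕ) : ℝ) + 1) * (1 + 1 / (J : ℝ)) ^ (j + 1) ≤
        2 * κ * (2 * j + 2) * (1 + 1 / (J : ℝ)) ^ (2 * j + 1) := by
      refine mul_le_mul ?_ (pow_le_pow_right₀ hbase (by omega)) (by positivity) (by positivity)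
      refine mul_le_mul_of_nonneg_left ?_ (by linarith)
      push_cast
      have : (0 : ℝ) ≤ j := Nat.cast_nonneg _
      linarith
    linarith
  obtain ⟨E, hEA, hEcard, hE⟩ := near_invariance hp₁ hp₂ hs₁ hn1 hD₁ hinc
  rw [← hq] at hE
  have hApos : (0 : ℝ) < A.card := by exact_mod_cast hA.card_pos
  have hEpos : (0 : ℝ) < E.card := lt_of_lt_of_le (by positivity) hEcard
  have hEne : E.Nonempty := by
    rw [← Finset.card_pos]; exact_mod_cast hEpos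
  refine ⟨{γ | 1 / 2 ≤ ‖ft (q ^ 2 ^ j) γ‖}, E, hEA, hEne, ?_, ?_, hsz.1, ?_⟩
  · have h3 : (A.card : ℝ) = Real.exp (2 * D + 1) * (A.card * Real.exp (-(2 * D + 1))) := by
      rw [Real.exp_neg]; field_simp
    rw [h3]
    exact mul_le_mul_of_nonneg_left hEcard (Real.exp_pos _).le
  · intro x hx y hy γ hγ
    exact hE x hx y hy γ hγ
  · refine hsz.2.trans (le_of_eq ?_)
    ring

end Pool.Agent.X164.PC
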