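import Mathlib
set_option autoImplicit false

/-! The choice of the parameters. -/

namespace Pool.Agent.X164.PC

/-- the scale -/
theorem params {m : ℕ} (hm : 1 ≤ m) {κ : ℝ} (hκ : 0.69 < κ) :
    ∃ j : ℕ, 2 * κ * (2 * j + 2) * (1 + 1 / ((5 * m + 5 : ℕ) : ℝ)) ^ (2 * j + 1) ≤ 2 ^ j / 2304 ∧
      9216 * κ * ((5 * m + 5 : ℕ) : ℝ) ≤ 2 ^ j ∧
      (2 : ℝ) ^ (j + 1) ≤
        ((2 : ℝ) ^ (5 * m) * (18432 * ((5 * m + 5 : ℕ) : ℝ) * κ)) ^ (1 + 1 / (m : ℝ)) := by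
  obtain ⟨J, hJ⟩ : ∃ J : ℕ, J = 5 * m + 5 := ⟨_, rfl⟩
  rw [← hJ]
  have hJ0 : (0 : ℝ) < J := by exact_mod_cast (by omega : 0 < J)
  have hJ1 : (10 : ℝ) ≤ J := by exact_mod_cast (by omega : 10 ≤ J)
  have hm0 : (0 : ℝ) < m := by exact_mod_cast hm
  have hM1 : (1 : ℝ) ≤ 18432 * (J : ℝ) * κ := by nlinarith
  have hy : (1 : ℝ) < 2 ^ (5 * m) := one_lt_pow₀ (by norm_num) (by omega)
  obtain ⟨n, hn1, hn2⟩ := exists_nat_pow_near hM1 hy
  obtain ⟨k, hk⟩ : ∃ k : ℕ, k = n + 1 := ⟨_, rfl⟩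
  have hk1 : 1 ≤ k := by omega
  rw [← hk] at hn2
  obtain ⟨j, hj⟩ : ∃ j : ℕ, j + 1 = J * k :=
    ⟨J * k - 1, Nat.sub_add_cancel (Nat.mul_pos (by omega) (by omega))⟩
  have hjr : (j : ℝ) + 1 = J * k := by exact_mod_cast hj
  have hkr : (1 : ℝ) ≤ k := by exact_mod_cast hk1
  have hk2 : (k : ℝ) ≤ 2 ^ k := by exact_mod_cast (Nat.lt_two_pow_self).le
  have h3 : (1 + 1 / (J : ℝ)) ^ J ≤ 3 := by
    have i1 : 1 + 1 / (J : ℝ) ≤ Real.exp (1 / J) := by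
      have := Real.add_one_le_exp (1 / (J : ℝ))
      linarith
    calc (1 + 1 / (J : ℝ)) ^ J ≤ (Real.exp (1 / J)) ^ J := pow_le_pow_left₀ (by positivity) i1 J
      _ = Real.exp 1 := by
        rw [← Real.exp_nat_mul]
        congr 1
        field_simp
      _ ≤ 3 := by
        have := Real.exp_one_lt_d9
        linarith
  have hbase : (1 : ℝ) ≤ 1 + 1 / (J : ℝ) := by
    have : (0 : ℝ) ≤ 1 / (J : ℝ) := by positivity
    linarith
  have h9 : (1 + 1 / (J : ℝ)) ^ (2 * j + 1) ≤ 9 ^ k := by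
    calc (1 + 1 / (J : ℝ)) ^ (2 * j + 1) ≤ (1 + 1 / (J : ℝ)) ^ (J * (2 * k)) := by
          refine pow_le_pow_right₀ hbase ?_
          have : J * (2 * k) = 2 * (J * k) := by ring
          omega
      _ = ((1 + 1 / (J : ℝ)) ^ J) ^ (2 * k) := pow_mul _ _ _
      _ ≤ 3 ^ (2 * k) := pow_le_pow_left₀ (by positivity) h3 _
      _ = 9 ^ k := by rw [pow_mul]; norm_num
  have hpow : (2 : ℝ) ^ (j + 1) = (2 ^ (5 * m)) ^ k * 32 ^ k := by
    rw [hj, hJ, ← pow_mul, show (32 : ℝ) = 2 ^ 5 by norm_num, ← pow_mul, ← pow_add]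
    congr 1
    ring
  have hmain : 18432 * (J : ℝ) * κ * 32 ^ k ≤ 2 ^ (j + 1) := by
    rw [hpow]
    exact mul_le_mul_of_nonneg_right hn2.le (by positivity)
  refine ⟨j, ?_, ?_, ?_⟩
  · have e1 : 2 * κ * (2 * (j : ℝ) + 2) = 4 * κ * (J * k) := by rw [← hjr]; ring
    rw [e1]
    have e2 : 4 * κ * (J * k) * (1 + 1 / (J : ℝ)) ^ (2 * j + 1) ≤ 4 * κ * (J * 2 ^ k) * 9 ^ k := by
      refine mul_le_mul ?_ h9 (by positivity) (by positivity)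
      refine mul_le_mul_of_nonneg_left ?_ (by linarith)
      exact mul_le_mul_of_nonneg_left hk2 hJ0.le
    have e3 : (2 : ℝ) ^ k * 9 ^ k ≤ 32 ^ k := by
      rw [← mul_pow]
      exact pow_le_pow_left₀ (by norm_num) (by norm_num) k
    have e4 : 4 * κ * (J * 2 ^ k) * 9 ^ k ≤ 4 * κ * J * 32 ^ k := by
      calc 4 * κ * (J * 2 ^ k) * 9 ^ k = 4 * κ * J * (2 ^ k * 9 ^ k) := by ring
        _ ≤ _ := mul_le_mul_of_nonneg_left e3 (by positivity)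
    have e5 : (2 : ℝ) ^ (j + 1) = 2 ^ j * 2 := pow_succ _ _
    rw [e5] at hmain
    have e6 : 4 * κ * J * 32 ^ k = (18432 * (J : ℝ) * κ * 32 ^ k) / 4608 := by ring
    linarith
  · have e1 : (1 : ℝ) ≤ 32 ^ k := one_le_pow₀ (by norm_num)
    have e2 : 18432 * (J : ℝ) * κ * 1 ≤ 18432 * (J : ℝ) * κ * 32 ^ k :=
      mul_le_mul_of_nonneg_left e1 (by positivity)
    have e5 : (2 : ℝ) ^ (j + 1) = 2 ^ j * 2 := pow_succ _ _
    rw [e5] at hmain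
    linarith
  · have e1 : ((2 : ℝ) ^ (5 * m)) ^ k ≤ 2 ^ (5 * m) * (18432 * (J : ℝ) * κ) := by
      rw [hk, pow_succ, mul_comm]
      exact mul_le_mul_of_nonneg_left hn1 (by positivity)
    have e2 : (2 : ℝ) ^ (j + 1) = (((2 : ℝ) ^ (5 * m)) ^ k) ^ (1 + 1 / (m : ℝ)) := by
      rw [hj, hJ, ← pow_mul, ← Real.rpow_natCast, ← Real.rpow_natCast,
        ← Real.rpow_mul (by norm_num)]
      congr 1
      push_cast
      field_simp
    rw [e2]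
    exact Real.rpow_le_rpow (by positivity) e1 (by positivity)

/-- the exponent -/
theorem exp_bound {m : ℕ} (hm : 1 ≤ m) {κ : ℝ} (hκ : 0.69 < κ) :
    ((2 : ℝ) ^ (5 * m) * (18432 * ((5 * m + 5 : ℕ) : ℝ) * κ)) ^ (1 + 1 / (m : ℝ)) ≤
      2 ^ (46 * m) * κ ^ (1 + 1 / (m : ℝ)) := by
  have hm0 : (0 : ℝ) < m := by exact_mod_cast hm
  have hκ0 : 0 < κ := by linarith
  have e2 : 18432 * (5 * m + 5) ≤ 2 ^ (18 * m) := by
    obtain ⟨l, rfl⟩ : ∃ l, m = l + 1 := ⟨m - 1, by omega⟩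
    have h1 : l < 2 ^ l := Nat.lt_two_pow_self
    calc 18432 * (5 * (l + 1) + 5) ≤ 262144 * 2 ^ l := by omega
      _ = 2 ^ (18 + l) := by rw [pow_add]; norm_num
      _ ≤ 2 ^ (18 * (l + 1)) := Nat.pow_le_pow_right (by norm_num) (by omega)
  have e2r : 18432 * ((5 * m + 5 : ℕ) : ℝ) ≤ 2 ^ (18 * m) := by exact_mod_cast e2
  have e1 : (2 : ℝ) ^ (5 * m) * (18432 * ((5 * m + 5 : ℕ) : ℝ) * κ) ≤ 2 ^ (23 * m) * κ := by
    calc (2 : ℝ) ^ (5 * m) * (18432 * ((5 * m + 5 : ℕ) : ℝ) * κ)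
        ≤ 2 ^ (5 * m) * (2 ^ (18 * m) * κ) :=
          mul_le_mul_of_nonneg_left (mul_le_mul_of_nonneg_right e2r hκ0.le) (by positivity)
      _ = 2 ^ (23 * m) * κ := by
        rw [← mul_assoc, ← pow_add]
        congr 2
        ring
  calc ((2 : ℝ) ^ (5 * m) * (18432 * ((5 * m + 5 : ℕ) : ℝ) * κ)) ^ (1 + 1 / (m : ℝ))
      ≤ (2 ^ (23 * m) * κ) ^ (1 + 1 / (m : ℝ)) :=
        Real.rpow_le_rpow (by positivity) e1 (by positivity)
    _ = 2 ^ (23 * m + 23) * κ ^ (1 + 1 / (m : ℝ)) := by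
        rw [Real.mul_rpow (by positivity) hκ0.le]
        congr 1
        rw [← Real.rpow_natCast, ← Real.rpow_natCast, ← Real.rpow_mul (by norm_num)]
        congr 1
        push_cast
        field_simp
    _ ≤ 2 ^ (46 * m) * κ ^ (1 + 1 / (m : ℝ)) := by
        refine mul_le_mul_of_nonneg_right ?_ (Real.rpow_nonneg hκ0.le _)
        exact pow_le_pow_right₀ (by norm_num) (by omega)

/-- `κ ≤ 2 κ ^ (1 + 1 / m)` -/
theorem kappa_le {m : ℕ} (hm : 1 ≤ m) {κ : ℝ} (hκ : 0.69 < κ) : κ ≤ 2 * κ ^ (1 + 1 / (m : ℝ)) := by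
  have hm1 : (1 : ℝ) ≤ m := by exact_mod_cast hm
  have hκ0 : 0 < κ := by linarith
  have h1 : (1 : ℝ) / 2 ≤ κ ^ (1 / (m : ℝ)) := by
    rcases le_total 1 κ with h | h
    · have := Real.one_le_rpow h (by positivity : (0 : ℝ) ≤ 1 / (m : ℝ))
      linarith
    · have h2 : κ ^ (1 : ℝ) ≤ κ ^ (1 / (m : ℝ)) := by
        refine Real.rpow_le_rpow_of_exponent_ge hκ0 h ?_
        rw [div_le_iff₀ (by linarith)]
        linarith
      rw [Real.rpow_one] at h2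
      linarith
  rw [Real.rpow_add hκ0, Real.rpow_one]
  have := mul_le_mul_of_nonneg_left h1 hκ0.le
  linarith

end Pool.Agent.X164.PC
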