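import Pool.Agent.X164.PC.Geom
import Pool.Agent.X164.PC.Num
import Pool.Agent.H112R2.Final
set_option autoImplicit false

/-! Coverings by polynomially many translates. -/

namespace Pool.Agent.X164.PC

open Finset H112 Pool.Agent.Y806.DF
open scoped Pointwise

/-- the conclusion -/
def Goal {Γ : Type*} [AddCommGroup Γ] (m : ℕ) (K : ℝ) (A : Finset Γ) : Prop :=
  ∃ (d : ℕ) (B : Set (Fin d → ℝ)) (ψ : (Fin d → ℤ) →+ Γ) (H : AddSubgroup Γ) (T : Finset Γ),
    (d : ℝ) ≤ 62000 * m * Real.log (2 * K) ∧ Body B ∧ Finite H ∧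
    ((lat B).ncard : ℝ) * Nat.card H ≤
      Real.exp (2 ^ (50 * m) * Real.log (2 * K) ^ (1 + 1 / (m : ℝ))) * A.card ∧
    (T.card : ℝ) ≤ (2 * K) ^ (300000 * m) ∧ Cov B ψ H T A

theorem goal_fg {G : Type*} [AddCommGroup G] [AddGroup.FG G] [DecidableEq G] {m : ℕ} (hm : 1 ≤ m)
    {K : ℝ} {A : Finset G} (hA : A.Nonempty) (hK : ((A + A).card : ℝ) ≤ K * A.card)
    (hK1 : 1 ≤ K) : Goal m K A := by
  obtain ⟨κ, hκ⟩ : ∃ κ : ℝ, κ = Real.log (2 * K) := ⟨_, rfl⟩
  have hκlog2 : Real.log 2 ≤ κ := by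
    rw [hκ]; exact Real.log_le_log (by norm_num) (by linarith)
  have hκ69 : (0.69 : ℝ) < κ := lt_of_lt_of_le (by have := Real.log_two_gt_d9; linarith) hκlog2
  have hκ0 : 0 < κ := by linarith
  have hlogK : Real.log K ≤ κ := by
    rw [hκ]; exact Real.log_le_log (by linarith) (by linarith)
  have hlogK0 : 0 ≤ Real.log K := Real.log_nonneg hK1
  have hm1 : (1 : ℝ) ≤ m := by exact_mod_cast hm
  have hexpκ : Real.exp κ = 2 * K := by rw [hκ, Real.exp_log (by linarith)]
  obtain ⟨j, hj1, hj2, hj3⟩ := params hm hκ69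
  have hJ1 : 1 ≤ 5 * m + 5 := by omega
  obtain ⟨J, hJ⟩ : ∃ J : ℕ, J = 5 * m + 5 := ⟨_, rfl⟩
  rw [← hJ] at hj1 hj2 hJ1
  have hJr : (J : ℝ) = 5 * m + 5 := by rw [hJ]; push_cast; ring
  obtain ⟨b, hb⟩ : ∃ b : ℝ, b = 2 ^ j / 2304 := ⟨_, rfl⟩
  obtain ⟨D, hD⟩ : ∃ D : ℝ, D = 2 * J * κ := ⟨_, rfl⟩
  obtain ⟨ε, hε⟩ : ∃ ε : ℝ, ε = b / 2 ^ j := ⟨_, rfl⟩
  have h2j : (0 : ℝ) < 2 ^ j := by positivity
  have hε' : ε = 1 / 2304 := by
    rw [hε, hb]
    field_simp
  have hρ : 4 * Real.sqrt ε = 1 / 12 := by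
    rw [hε', show (1 : ℝ) / 2304 = (1 / 48) ^ 2 by norm_num, Real.sqrt_sq (by norm_num)]
    norm_num
  -- the condition on the tail
  have hsmall : 2 * b + 2 * Real.log K + 2 * D ≤ 2 ^ j / 1000 + 4 * J * κ + 2 * κ := by
    rw [hb, hD]
    have : (2 : ℝ) ^ j / 2304 * 2 ≤ 2 ^ j / 1000 := by linarith
    linarith
  have h4 : (1 / 4 : ℝ) ^ (2 ^ j) ≤ Real.exp (-(2 * b + 2 * Real.log K + 2 * D)) / 4 := by
    have e1 : (1 / 4 : ℝ) ^ (2 ^ j) = Real.exp (-(2 ^ j * Real.log 4)) := by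
      rw [Real.exp_neg, ← Real.rpow_natCast, Real.rpow_def_of_pos (by norm_num), one_div,
        Real.log_inv, ← Real.exp_neg]
      congr 1
      push_cast
      ring
    have e2 : Real.exp (-(2 * b + 2 * Real.log K + 2 * D)) / 4 =
        Real.exp (-(2 * b + 2 * Real.log K + 2 * D) - Real.log 4) := by
      rw [Real.exp_sub, Real.exp_log (by norm_num)]
    rw [e1, e2]
    apply Real.exp_le_exp.2
    have hl4 : Real.log 4 = 2 * Real.log 2 := by
      rw [show (4 : ℝ) = 2 ^ 2 by norm_num, Real.log_pow]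
      norm_num
    have l1 := Real.log_two_gt_d9
    have l2 := Real.log_two_lt_d9
    have hJ10 : (10 : ℝ) ≤ J := by rw [hJr]; linarith
    have e3 : 10 * κ ≤ J * κ := mul_le_mul_of_nonneg_right hJ10 hκ0.le
    have e4 : (2 : ℝ) ^ j * 1 ≤ 2 ^ j * Real.log 4 :=
      mul_le_mul_of_nonneg_left (by rw [hl4]; linarith) h2j.le
    have e5 : 9216 * (J * κ) ≤ 2 ^ j := by linarith
    rw [hl4] at e4 ⊢
    linarith
  obtain ⟨S, E, hEA, hEne, hEcard, hEE, hfin, hsize⟩ :=
    core hA hK hK1 hJ1 j hκ (b := b) (by rw [hb]; exact hj1) hD hε h4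
  rw [hρ] at hEE
  have hApos : (0 : ℝ) < A.card := by exact_mod_cast hA.card_pos
  -- doubling of `E`
  obtain ⟨L, hL⟩ : ∃ L : ℝ, L = K * Real.exp (2 * D + 1) := ⟨_, rfl⟩
  have hD0 : 0 ≤ D := by rw [hD]; positivity
  have hL1 : 1 ≤ L := by
    rw [hL]
    have : 1 ≤ Real.exp (2 * D + 1) := Real.one_le_exp (by linarith)
    exact one_le_mul_of_one_le_of_one_le hK1 this
  have hAL : ((A + A).card : ℝ) ≤ L * E.card := by
    calc ((A + A).card : ℝ) ≤ K * A.card := hK
      _ ≤ K * (Real.exp (2 * D + 1) * E.card) := mul_le_mul_of_nonneg_left hEcard (by linarith)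
      _ = L * E.card := by rw [hL]; ring
  have hEL : ((E + E).card : ℝ) ≤ L * E.card :=
    (by exact_mod_cast Finset.card_le_card (Finset.add_subset_add hEA hEA) :
      ((E + E).card : ℝ) ≤ (A + A).card).trans hAL
  have hAEL : ((A + E).card : ℝ) ≤ L * E.card :=
    (by exact_mod_cast Finset.card_le_card (Finset.add_subset_add_left hEA) :
      ((A + E).card : ℝ) ≤ (A + A).card).trans hAL
  obtain ⟨T₀, -, hT₀, hcov₀⟩ := Finset.ruzsa_covering_add hEne hAEL
  obtain ⟨r, B, θ, H, F, hr, hB, hH, hvol, hF, hcov⟩ :=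
    bohr_to_prog hfin hEne hEL (by norm_num : (0 : ℝ) ≤ 1 / 12) le_rfl hEE
  have hlogL : Real.log L ≤ (4 * J + 3) * κ := by
    rw [hL, Real.log_mul (by linarith) (Real.exp_pos _).ne', Real.log_exp, hD]
    linarith
  have hLexp : L ≤ Real.exp ((4 * J + 3) * κ) := by
    rw [← Real.exp_log (by linarith : 0 < L)]
    exact Real.exp_le_exp.2 hlogL
  have hrκ : (r : ℝ) ≤ 62000 * m * κ := by
    rw [Real.log_pow] at hr
    push_cast at hr
    have e1 : 480 * (3 * Real.log L) + 1 ≤ 480 * (3 * ((4 * J + 3) * κ)) + 2 * κ := by linarith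
    have e2 : 480 * (3 * ((4 * J + 3) * κ)) + 2 * κ = (28800 * m + 33122) * κ := by
      rw [hJr]; ring
    have e3 : (28800 * (m : ℝ) + 33122) * κ ≤ (62000 * m) * κ :=
      mul_le_mul_of_nonneg_right (by linarith) hκ0.le
    linarith
  have h16 : (16 : ℝ) ^ r ≤ Real.exp (172360 * m * κ) := by
    rw [← Real.exp_log (by norm_num : (0 : ℝ) < 16), ← Real.exp_nat_mul]
    apply Real.exp_le_exp.2
    have e1 : Real.log 16 = 4 * Real.log 2 := by
      rw [show (16 : ℝ) = 2 ^ 4 by norm_num, Real.log_pow]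
      norm_num
    have e2 : Real.log 16 ≤ 2.78 := by
      rw [e1]
      have := Real.log_two_lt_d9
      linarith
    calc (r : ℝ) * Real.log 16 ≤ (62000 * m * κ) * 2.78 :=
          mul_le_mul hrκ e2 (Real.log_nonneg (by norm_num)) (by positivity)
      _ = 172360 * m * κ := by ring
  refine ⟨r, B, θ, H, T₀ + F, by rw [← hκ]; exact hrκ, hB, hH, ?_, ?_, ?_⟩
  · -- volume
    have e1 : ((lat B).ncard : ℝ) * Nat.card H ≤ 16 ^ r * (bohr S (1 / 6)).ncard := by
      exact_mod_cast hvol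
    have e8 : (8 : ℝ) ≤ Real.exp (4 * κ) := by
      have h5 : Real.exp (4 * Real.log 2) ≤ Real.exp (4 * κ) := Real.exp_le_exp.2 (by linarith)
      have h6 : Real.exp (4 * Real.log 2) = 16 := by
        rw [show (4 : ℝ) * Real.log 2 = (4 : ℕ) * Real.log 2 by norm_num, Real.exp_nat_mul,
          Real.exp_log (by norm_num)]
        norm_num
      linarith
    calc ((lat B).ncard : ℝ) * Nat.card H ≤ 16 ^ r * (bohr S (1 / 6)).ncard := e1
      _ ≤ Real.exp (172360 * m * κ) *
            ((Real.exp (4 * κ) * Real.exp (2 * b + 2 * Real.log K + 2 * D)) * A.card) := by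
          refine mul_le_mul h16 (hsize.trans ?_) (Nat.cast_nonneg _) (Real.exp_pos _).le
          refine mul_le_mul_of_nonneg_right ?_ hApos.le
          exact mul_le_mul_of_nonneg_right e8 (Real.exp_pos _).le
      _ = Real.exp (172360 * m * κ + (4 * κ + (2 * b + 2 * Real.log K + 2 * D))) * A.card := by
          rw [← Real.exp_add, ← mul_assoc, ← Real.exp_add]
      _ ≤ _ := by
          refine mul_le_mul_of_nonneg_right (Real.exp_le_exp.2 ?_) hApos.le
          rw [← hκ]
          have f1 : 172360 * (m : ℝ) * κ + (4 * κ + (2 * b + 2 * Real.log K + 2 * D)) ≤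
              2 ^ (j + 1) + 173000 * m * κ := by
            have g1 : 4 * κ + 2 * κ + 4 * J * κ = (20 * m + 26) * κ := by rw [hJr]; ring
            have g2 : (20 * (m : ℝ) + 26) * κ ≤ (46 * m) * κ :=
              mul_le_mul_of_nonneg_right (by linarith) hκ0.le
            have g3 : 0 ≤ (m : ℝ) * κ := by positivity
            have g4 : (2 : ℝ) ^ (j + 1) = 2 ^ j * 2 := pow_succ _ _
            linarith
          have f2 := hj3.trans (exp_bound hm hκ69)
          have f3 := kappa_le hm hκ69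
          have f4 : 173000 * (m : ℝ) * κ ≤ 346000 * m * κ ^ (1 + 1 / (m : ℝ)) := by
            have := mul_le_mul_of_nonneg_left f3 (by positivity : (0 : ℝ) ≤ 173000 * (m : ℝ))
            linarith
          have f5 : (2 : ℝ) ^ (46 * m) + 346000 * m ≤ 2 ^ (50 * m) := by
            have g1 : (m : ℝ) ≤ 2 ^ m := by exact_mod_cast (Nat.lt_two_pow_self).le
            have g2 : (346000 : ℝ) ≤ 2 ^ (19 * m) := by
              calc (346000 : ℝ) ≤ 2 ^ 19 := by norm_num
                _ ≤ 2 ^ (19 * m) := pow_le_pow_right₀ (by norm_num) (by omega)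
            have g3 : 346000 * (m : ℝ) ≤ 2 ^ (19 * m) * 2 ^ m :=
              mul_le_mul g2 g1 (by positivity) (by positivity)
            rw [← pow_add] at g3
            have g4 : (2 : ℝ) ^ (19 * m + m) ≤ 2 ^ (46 * m) :=
              pow_le_pow_right₀ (by norm_num) (by omega)
            have g5 : (2 : ℝ) ^ (46 * m) * 2 ≤ 2 ^ (50 * m) := by
              rw [← pow_succ]
              exact pow_le_pow_right₀ (by norm_num) (by omega)
            linarith
          have f6 := mul_le_mul_of_nonneg_right f5 (Real.rpow_nonneg hκ0.le (1 + 1 / (m : ℝ)))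
          linarith
  · -- the number of translates
    have e1 : ((T₀ + F).card : ℝ) ≤ T₀.card * F.card := by exact_mod_cast Finset.card_add_le
    have e2 : (F.card : ℝ) ≤ L ^ 2232 * 16 ^ r := by
      refine hF.trans (le_of_eq ?_)
      rw [mul_pow, ← pow_mul, ← pow_mul, ← pow_mul, mul_comm r 2, pow_mul 4 2 r]
      norm_num
    calc ((T₀ + F).card : ℝ) ≤ T₀.card * F.card := e1
      _ ≤ L * (L ^ 2232 * 16 ^ r) := mul_le_mul hT₀ e2 (Nat.cast_nonneg _) (by linarith)
      _ = L ^ 2233 * 16 ^ r := by rw [← mul_assoc, ← pow_succ']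
      _ ≤ (Real.exp ((4 * J + 3) * κ)) ^ 2233 * Real.exp (172360 * m * κ) := by
          refine mul_le_mul (pow_le_pow_left₀ (by linarith) hLexp _) h16 (by positivity)
            (by positivity)
      _ = Real.exp (2233 * ((4 * J + 3) * κ) + 172360 * m * κ) := by
          rw [← Real.exp_nat_mul, ← Real.exp_add]
          norm_num
      _ ≤ Real.exp ((300000 * m : ℕ) * κ) := by
          apply Real.exp_le_exp.2
          have f1 : 2233 * ((4 * J + 3) * κ) + 172360 * m * κ = (217020 * m + 51359) * κ := by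
            rw [hJr]; ring
          have f2 : (217020 * (m : ℝ) + 51359) * κ ≤ (300000 * m) * κ :=
            mul_le_mul_of_nonneg_right (by linarith) hκ0.le
          push_cast
          linarith
      _ = (2 * K) ^ (300000 * m) := by
          rw [Real.exp_nat_mul, hexpκ]
  · intro a ha
    obtain ⟨t, ht, u, hu, rfl⟩ := Finset.mem_add.1 (hcov₀ ha)
    obtain ⟨e, he, e', he', rfl⟩ := Finset.mem_sub.1 hu
    obtain ⟨f, hf, w, hw, h, hh, hfe⟩ := hcov e he e' he'
    refine ⟨t + f, Finset.add_mem_add ht hf, w, hw, h, hh, ?_⟩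
    rw [hfe]
    abel

theorem goal {G : Type*} [AddCommGroup G] [DecidableEq G] {m : ℕ} (hm : 1 ≤ m)
    {K : ℝ} {A : Finset G} (hA : A.Nonempty) (hK : ((A + A).card : ℝ) ≤ K * A.card) :
    Goal m K A := by
  classical
  have hApos : (0 : ℝ) < A.card := by exact_mod_cast hA.card_pos
  have hK1 : 1 ≤ K := by
    have h1 : (A.card : ℝ) ≤ (A + A).card := by
      exact_mod_cast Finset.card_le_card_add_right hA
    nlinarith
  obtain ⟨Γ, hΓ⟩ : ∃ Γ : AddSubgroup G, Γ = AddSubgroup.closure (A : Set G) := ⟨_, rfl⟩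
  obtain ⟨A', hA'⟩ := exists_model A Γ (fun a ha => by
    rw [hΓ]; exact AddSubgroup.subset_closure ha)
  have hinj : Function.Injective Γ.subtype := Γ.subtype_injective
  have : AddGroup.FG Γ := by
    rw [AddGroup.fg_iff_addSubgroup_fg]
    exact ⟨A, hΓ.symm⟩
  have hA'ne : A'.Nonempty := by
    rw [← hA'] at hA; exact Finset.image_nonempty.1 hA
  have hcard : A'.card = A.card := by
    rw [← hA', Finset.card_image_of_injective _ hinj]
  have hcard2 : (A' + A').card = (A + A).card := by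
    rw [← hA', ← Finset.image_add, Finset.card_image_of_injective _ hinj]
  have hK' : ((A' + A').card : ℝ) ≤ K * A'.card := by rw [hcard2, hcard]; exact hK
  obtain ⟨d, B, ψ, H₀, T, hd, hB, hH₀, hvol, hT, hcov⟩ := goal_fg hm hA'ne hK' hK1
  refine ⟨d, B, Γ.subtype.comp ψ, H₀.map Γ.subtype, T.image Γ.subtype, hd, hB, ?_, ?_, ?_, ?_⟩
  · have : (H₀.map Γ.subtype : Set G).Finite := by
      rw [AddSubgroup.coe_map]
      exact (Set.toFinite (H₀ : Set Γ)).image _
    exact this.to_subtype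
  · have h1 : Nat.card (H₀.map Γ.subtype) = Nat.card H₀ :=
      Nat.card_congr (H₀.equivMapOfInjective Γ.subtype hinj).toEquiv.symm
    rw [h1, ← hcard]
    exact hvol
  · refine le_trans ?_ hT
    exact_mod_cast Finset.card_image_le
  · intro a ha
    rw [← hA'] at ha
    obtain ⟨a', ha', rfl⟩ := Finset.mem_image.1 ha
    obtain ⟨t, ht, c, hc, h, hh, e⟩ := hcov a' ha'
    refine ⟨Γ.subtype t, Finset.mem_image_of_mem _ ht, c, hc, Γ.subtype h, ⟨h, hh, rfl⟩, ?_⟩
    rw [e, map_add, map_add]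
    rfl

end Pool.Agent.X164.PC
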