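import Pool.Agent.Y806.DF.C
set_option autoImplicit false

/-! Structure of sets of integer points with a bound for the number of integer points of the hull
(variant of `Pool.Agent.Y806.DF.struct`). -/

namespace Pool.Agent.X164.PC

open Finset Pool.Agent.Y806.DF
open scoped Pointwise

/-- Structure of a set of integer points of small doubling with few integer points in its hull. -/
theorem structV {d : ℕ} (X : Finset (Fin d → ℤ)) (hX : X.Nonempty) {K : ℝ} (hK1 : 1 ≤ K)
    (hK : ((X + X).card : ℝ) ≤ K * X.card) {W : ℝ} (hh : ((hull X).ncard : ℝ) ≤ W) :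
    ∃ (r : ℕ) (φ : (Fin r → ℤ) →+ (Fin d → ℤ)) (B : Set (Fin r → ℝ)) (F : Finset (Fin d → ℤ)),
      (r : ℝ) ≤ 480 * Real.log K + 1 ∧ Sym B ∧ (num B 1 : ℝ) ≤ W ∧
      (F.card : ℝ) ≤ K ^ 372 * 4 ^ r ∧
      ∀ x ∈ X, ∃ f ∈ F, ∃ w ∈ lat ((2 : ℝ) • B), x = f + φ w := by
  classical
  obtain ⟨r, φ, t, Y, hr, hφ, hY, hXY, hsub⟩ := reduce X hX hK1 hK
  have hYpos : (0 : ℝ) < Y.card := by exact_mod_cast hY.card_pos
  have hK0 : 0 < K := by linarith
  -- doubling of `Y`
  have hYY : ((Y + Y).card : ℝ) ≤ K ^ 186 * Y.card := by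
    have h1 : (Y + Y).card ≤ (X + X).card := by
      refine Finset.card_le_card_of_injOn (fun v => (t + t) + φ v) ?_ ?_
      · intro v hv
        obtain ⟨a, ha, b, hb, rfl⟩ := Finset.mem_add.1 (Finset.mem_coe.1 hv)
        rw [Finset.mem_coe]
        have e : (t + t) + φ (a + b) = (t + φ a) + (t + φ b) := by rw [map_add]; abel
        show (t + t) + φ (a + b) ∈ X + X
        rw [e]
        exact Finset.add_mem_add (hsub a ha) (hsub b hb)
      · intro v _ w _ h
        exact hφ (add_left_cancel h)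
    calc ((Y + Y).card : ℝ) ≤ (X + X).card := by exact_mod_cast h1
      _ ≤ K * X.card := hK
      _ ≤ K * (K ^ 185 * Y.card) := mul_le_mul_of_nonneg_left hXY hK0.le
      _ = K ^ 186 * Y.card := by ring
  obtain ⟨c, hc⟩ := sym_part Y hY hYY
  set Yc := Y.filter (fun y => c + c - y ∈ Y) with hYc
  have hYcpos : 0 < Yc.card := by
    by_contra h
    have h0 : Yc.card = 0 := by omega
    rw [h0, Nat.cast_zero, mul_zero] at hc
    linarith
  have hYcne : Yc.Nonempty := Finset.card_pos.1 hYcpos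
  -- the symmetric convex set
  set D : Set (Fin r → ℝ) := re '' ((Yc.image (fun y => y - c) : Finset (Fin r → ℤ)) : Set (Fin r → ℤ)) with hD
  have hDfin : D.Finite := (Finset.finite_toSet _).image re
  have hDsym : -D = D := by
    ext x
    rw [Set.mem_neg]
    constructor
    · rintro ⟨v, hv, hvx⟩
      obtain ⟨y, hy, rfl⟩ := Finset.mem_image.1 (Finset.mem_coe.1 hv)
      have hy' := Finset.mem_filter.1 hy
      refine ⟨(c + c - y) - c, ?_, ?_⟩
      · rw [Finset.mem_coe, Finset.mem_image]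
        refine ⟨c + c - y, Finset.mem_filter.2 ⟨hy'.2, ?_⟩, rfl⟩
        have : c + c - (c + c - y) = y := by abel
        rw [this]
        exact hy'.1
      · have e : (c + c - y) - c = -(y - c) := by abel
        rw [e, re_neg, hvx, neg_neg]
    · rintro ⟨v, hv, rfl⟩
      obtain ⟨y, hy, rfl⟩ := Finset.mem_image.1 (Finset.mem_coe.1 hv)
      have hy' := Finset.mem_filter.1 hy
      refine ⟨(c + c - y) - c, ?_, ?_⟩
      · rw [Finset.mem_coe, Finset.mem_image]
        refine ⟨c + c - y, Finset.mem_filter.2 ⟨hy'.2, ?_⟩, rfl⟩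
        have : c + c - (c + c - y) = y := by abel
        rw [this]
        exact hy'.1
      · have e : (c + c - y) - c = -(y - c) := by abel
        rw [e, re_neg]
  set B := convexHull ℝ D with hB
  have hsym : Sym B := by
    refine ⟨convex_convexHull ℝ D, hDfin.isCompact_convexHull ℝ, ?_, ?_⟩
    · intro x hx
      have h1 : -B = B := by rw [hB, ← convexHull_neg, hDsym]
      rw [← h1, Set.mem_neg, neg_neg]
      exact hx
    · obtain ⟨y, hy⟩ := hYcne
      exact ⟨re (y - c), subset_convexHull ℝ D ⟨y - c, Finset.mem_coe.2 (Finset.mem_image.2 ⟨y, hy, rfl⟩), rfl⟩⟩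
  have hmem : ∀ y ∈ Yc, y - c ∈ lat ((1 : ℝ) • B) := by
    intro y hy
    show re (y - c) ∈ (1 : ℝ) • B
    rw [one_smul]
    exact subset_convexHull ℝ D ⟨y - c, Finset.mem_coe.2 (Finset.mem_image.2 ⟨y, hy, rfl⟩), rfl⟩
  -- the number of integer points
  have hnum : num B 1 ≤ (hull Y).ncard := by
    refine Set.ncard_le_ncard_of_injOn (fun v => c + v) ?_ ?_ (hull_finite Y)
    · intro v hv
      have hv' : re v ∈ B := by
        have : re v ∈ (1 : ℝ) • B := hv
        rwa [one_smul] at this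
      show re (c + v) ∈ convexHull ℝ (re '' (Y : Set (Fin r → ℤ)))
      rw [re_add]
      have h2 : re c + re v ∈ re c +ᵥ convexHull ℝ D := ⟨_, hv', rfl⟩
      rw [← convexHull_vadd] at h2
      refine convexHull_mono ?_ h2
      rintro _ ⟨_, ⟨u, hu, rfl⟩, rfl⟩
      obtain ⟨y, hy, rfl⟩ := Finset.mem_image.1 (Finset.mem_coe.1 hu)
      refine ⟨y, (Finset.mem_filter.1 hy).1, ?_⟩
      show re y = re c + re (y - c)
      rw [re_sub]
      abel
    · intro v _ w _ h
      exact add_left_cancel h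
  have hnum' : (num B 1 : ℝ) ≤ W := by
    have h1 : num B 1 ≤ (hull X).ncard := hnum.trans (hull_map φ hφ t X Y hsub)
    exact (by exact_mod_cast h1 : (num B 1 : ℝ) ≤ (hull X).ncard).trans hh
  -- the covering
  set Z := Yc.image (fun y => t + φ y) with hZ
  have hZcard : Z.card = Yc.card :=
    Finset.card_image_of_injOn (fun v _ w _ h => hφ (add_left_cancel h))
  have hZne : Z.Nonempty := hYcne.image _
  have hZX : Z ⊆ X := by
    intro z hz
    obtain ⟨y, hy, rfl⟩ := Finset.mem_image.1 hz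
    exact hsub y (Finset.mem_filter.1 hy).1
  have hXZ : ((X + Z).card : ℝ) ≤ (K ^ 372 * 4 ^ r) * Z.card := by
    have h1 : ((X + Z).card : ℝ) ≤ (X + X).card := by
      exact_mod_cast Finset.card_le_card (Finset.add_subset_add_left hZX)
    calc ((X + Z).card : ℝ) ≤ (X + X).card := h1
      _ ≤ K * X.card := hK
      _ ≤ K * (K ^ 185 * Y.card) := mul_le_mul_of_nonneg_left hXY hK0.le
      _ ≤ K * (K ^ 185 * (4 ^ r * K ^ 186 * Yc.card)) :=
        mul_le_mul_of_nonneg_left (mul_le_mul_of_nonneg_left hc (by positivity)) hK0.le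
      _ = (K ^ 372 * 4 ^ r) * Z.card := by rw [hZcard]; ring
  obtain ⟨F, -, hF, hcov⟩ := Finset.ruzsa_covering_add hZne hXZ
  refine ⟨r, φ, B, F, hr, hsym, hnum', hF, ?_⟩
  intro x hx
  obtain ⟨f, hf, u, hu, rfl⟩ := Finset.mem_add.1 (hcov hx)
  obtain ⟨z, hz, z', hz', rfl⟩ := Finset.mem_sub.1 hu
  obtain ⟨y, hy, rfl⟩ := Finset.mem_image.1 hz
  obtain ⟨y', hy', rfl⟩ := Finset.mem_image.1 hz'
  refine ⟨f, hf, y - y', ?_, ?_⟩
  · have h1 := hsym.sub (by norm_num) (by norm_num) (hmem y hy) (hmem y' hy')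
    have e : y - c - (y' - c) = y - y' := by abel
    rw [e] at h1
    norm_num at h1
    exact h1
  · rw [map_sub]
    abel


end Pool.Agent.X164.PC
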