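import Pool.Agent.X164.PC.Core
import Pool.Agent.X164.PC.Struct
import Pool.Agent.X164.MG.A
set_option autoImplicit false

/-! From a Bohr set to a convex coset progression of small dimension. -/

namespace Pool.Agent.X164.PC

open Finset H112 Pool.Agent.Y806.DF
open scoped Pointwise

variable {G : Type*} [AddCommGroup G]

theorem bohr_to_prog [AddGroup.FG G] [DecidableEq G] {S : Set (G →+ UnitAddCircle)}
    (hfin : (bohr S (1 / 6)).Finite) {E : Finset G} (hE : E.Nonempty) {L : ℝ}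
    (hL : ((E + E).card : ℝ) ≤ L * E.card) {ρ : ℝ} (hρ0 : 0 ≤ ρ) (hρ : ρ ≤ 1 / 12)
    (hEE : ∀ x ∈ E, ∀ y ∈ E, x - y ∈ bohr S ρ) :
    ∃ (r : ℕ) (B : Set (Fin r → ℝ)) (θ : (Fin r → ℤ) →+ G) (H : AddSubgroup G) (F : Finset G),
      (r : ℝ) ≤ 480 * Real.log (L ^ 3) + 1 ∧ Body B ∧ Finite H ∧
      (lat B).ncard * Nat.card H ≤ 16 ^ r * (bohr S (1 / 6)).ncard ∧
      (F.card : ℝ) ≤ ((L ^ 3) ^ 372 * 4 ^ r) ^ 2 ∧
      ∀ e ∈ E, ∀ e' ∈ E, ∃ f ∈ F, ∃ w ∈ lat B, ∃ h ∈ H, e - e' = f + θ w + h := by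
  classical
  obtain ⟨e₀, he₀⟩ := hE
  have hE : E.Nonempty := ⟨e₀, he₀⟩
  have hL1 : 1 ≤ L := Pool.Agent.X164.MG.one_le hE hL
  obtain ⟨m, N, ψ, hN, h1, h2, -⟩ := lattice_repr S hfin hρ0 (by linarith : ρ ≤ 1 / 6)
  have := ann_finite hfin
  obtain ⟨hLfin, hLcard⟩ := card_LL_le hfin hN h1 hρ0 (by linarith : ρ ≤ 1 / 6)
  set q := QuotientAddGroup.mk' (ann S) with hq
  have hqz : ∀ x y : G, q x = q y → y - x ∈ ann S := by
    intro x y h
    have h3 : q (y - x) = 0 := by rw [map_sub, h, sub_self]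
    exact (QuotientAddGroup.eq_zero_iff _).1 h3
  have hqz' : ∀ x y : G, y - x ∈ ann S → q x = q y := by
    intro x y h
    have h3 : q (y - x) = 0 := (QuotientAddGroup.eq_zero_iff _).2 h
    rw [map_sub, sub_eq_zero] at h3
    exact h3.symm
  set X : Finset (Fin m → ℤ) :=
    hLfin.toFinset.filter (fun c => ∃ h ∈ ann S, e₀ + ψ c + h ∈ E) with hX
  have hXmem : ∀ c ∈ X, c ∈ LL N ρ ∧ ∃ h ∈ ann S, e₀ + ψ c + h ∈ E := by
    intro c hc
    have := Finset.mem_filter.1 hc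
    exact ⟨(Set.Finite.mem_toFinset _).1 this.1, this.2⟩
  have hEX : ∀ e ∈ E, ∃ c ∈ X, e - (e₀ + ψ c) ∈ ann S := by
    intro e he
    obtain ⟨c, hc, hc2⟩ := h2 _ (hEE e he e₀ he₀)
    have e1 : e - e₀ - ψ c = e - (e₀ + ψ c) := by abel
    rw [e1] at hc2
    refine ⟨c, Finset.mem_filter.2 ⟨(Set.Finite.mem_toFinset _).2 hc, _, hc2, ?_⟩, hc2⟩
    have e2 : e₀ + ψ c + (e - (e₀ + ψ c)) = e := by abel
    rw [e2]
    exact he
  have hXne : X.Nonempty := by
    obtain ⟨c, hc, -⟩ := hEX e₀ he₀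
    exact ⟨c, hc⟩
  -- the doubling of `X`
  have hc1 : (E.image q).card ≤ X.card := by
    have : E.image q ⊆ X.image (fun c => q (e₀ + ψ c)) := by
      intro z hz
      obtain ⟨e, he, rfl⟩ := Finset.mem_image.1 hz
      obtain ⟨c, hc, hc2⟩ := hEX e he
      exact Finset.mem_image.2 ⟨c, hc, hqz' _ _ hc2⟩
    exact (Finset.card_le_card this).trans Finset.card_image_le
  have hc2 : (X + X).card ≤ (E.image q + E.image q).card := by
    refine Finset.card_le_card_of_injOn (fun s => q ((e₀ + e₀) + ψ s)) ?_ ?_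
    · intro s hs
      obtain ⟨x, hx, y, hy, rfl⟩ := Finset.mem_add.1 (Finset.mem_coe.1 hs)
      obtain ⟨-, h, hh, hhE⟩ := hXmem x hx
      obtain ⟨-, h', hh', hhE'⟩ := hXmem y hy
      have e1 : q ((e₀ + e₀) + ψ (x + y)) = q (e₀ + ψ x + h) + q (e₀ + ψ y + h') := by
        rw [← map_add]
        refine hqz' _ _ ?_
        have : e₀ + ψ x + h + (e₀ + ψ y + h') - (e₀ + e₀ + ψ (x + y)) = h + h' := by
          rw [map_add]; abel
        rw [this]
        exact (ann S).add_mem hh hh'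
      rw [Finset.mem_coe]
      change q ((e₀ + e₀) + ψ (x + y)) ∈ _
      rw [e1]
      exact Finset.add_mem_add (Finset.mem_image_of_mem _ hhE) (Finset.mem_image_of_mem _ hhE')
    · intro s hs s' hs' h
      obtain ⟨x, hx, y, hy, rfl⟩ := Finset.mem_add.1 (Finset.mem_coe.1 hs)
      obtain ⟨x', hx', y', hy', rfl⟩ := Finset.mem_add.1 (Finset.mem_coe.1 hs')
      have hd : (x - x') - (y' - y) ∈ LL N ((ρ + ρ) + (ρ + ρ)) :=
        LL_add N (LL_add N (hXmem x hx).1 (hXmem x' hx').1)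
          (LL_add N (hXmem y' hy').1 (hXmem y hy).1)
      have e1 : (x - x') - (y' - y) = (x + y) - (x' + y') := by abel
      rw [e1] at hd
      have hd2 : N (fun i => ((((x + y) - (x' + y')) i : ℤ) : ℝ)) < 1 / 2 := by
        have : N (fun i => ((((x + y) - (x' + y')) i : ℤ) : ℝ)) ≤ (ρ + ρ) + (ρ + ρ) := hd
        linarith
      have h3 := hqz _ _ h
      have e2 : e₀ + e₀ + ψ (x' + y') - (e₀ + e₀ + ψ (x + y)) = -ψ ((x + y) - (x' + y')) := by
        rw [map_sub]; abel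
      rw [e2] at h3
      have h4 : ψ ((x + y) - (x' + y')) ∈ ann S := by
        have := (ann S).neg_mem h3
        rwa [neg_neg] at this
      have h5 : (x + y) - (x' + y') ∈ LL N 0 := (h1 _ hd2 0 le_rfl).1 (bohr_zero_of_ann h4 le_rfl)
      exact sub_eq_zero.1 (LL_zero hN h5)
  have hXX : ((X + X).card : ℝ) ≤ L ^ 3 * X.card := by
    calc ((X + X).card : ℝ) ≤ (E.image q + E.image q).card := by exact_mod_cast hc2
      _ ≤ L ^ 3 * (E.image q).card := Pool.Agent.X164.MG.sumset_fst q hE hL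
      _ ≤ L ^ 3 * X.card := mul_le_mul_of_nonneg_left (by exact_mod_cast hc1) (by positivity)
  -- the hull
  have hhull : ((hull X).ncard : ℝ) ≤ (LL N ρ).ncard := by
    have h3 : hull X ⊆ LL N ρ := by
      intro v hv
      have hconv : Convex ℝ {x : Fin m → ℝ | x ∈ Set.univ ∧ N x ≤ ρ} := N.convexOn.convex_le ρ
      have h4 : convexHull ℝ (re '' (X : Set (Fin m → ℤ))) ⊆ {x | x ∈ Set.univ ∧ N x ≤ ρ} := by
        refine convexHull_min ?_ hconv
        rintro _ ⟨x, hx, rfl⟩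
        exact ⟨Set.mem_univ _, (hXmem x (Finset.mem_coe.1 hx)).1⟩
      exact (h4 hv).2
    exact_mod_cast Set.ncard_le_ncard h3 hLfin
  obtain ⟨r, φ, B, F, hr, hB, hnum, hF, hcov⟩ :=
    structV X hXne (one_le_pow₀ hL1 : (1 : ℝ) ≤ L ^ 3) hXX hhull
  obtain ⟨B', hB', hlat⟩ := fatten (hB.smul 4)
  refine ⟨r, B', ψ.comp φ, ann S, (F ×ˢ F).image (fun p => ψ (p.1 - p.2)), hr, hB', inferInstance,
    ?_, ?_, ?_⟩
  · rw [hlat]
    have h3 : num B 4 ≤ 16 ^ r * num B 1 := by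
      have e1 := num_double hB (t := 2) (by norm_num)
      have e2 := num_double hB (t := 1) (by norm_num)
      norm_num at e1 e2
      calc num B 4 ≤ 4 ^ r * num B 2 := e1
        _ ≤ 4 ^ r * (4 ^ r * num B 1) := Nat.mul_le_mul_left _ e2
        _ = 16 ^ r * num B 1 := by
          rw [← mul_assoc, ← mul_pow]
          norm_num
    have h4 : num B 1 ≤ (LL N ρ).ncard := by exact_mod_cast hnum
    calc (lat ((4 : ℝ) • B)).ncard * Nat.card (ann S) ≤
          (16 ^ r * (LL N ρ).ncard) * Nat.card (ann S) :=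
          Nat.mul_le_mul_right _ (h3.trans (Nat.mul_le_mul_left _ h4))
      _ = 16 ^ r * ((LL N ρ).ncard * Nat.card (ann S)) := by ring
      _ ≤ _ := Nat.mul_le_mul_left _ hLcard
  · have h3 : (((F ×ˢ F).image (fun p => ψ (p.1 - p.2))).card : ℝ) ≤ (F.card : ℝ) ^ 2 := by
      have h5 : ((F ×ˢ F).image (fun p => ψ (p.1 - p.2))).card ≤ F.card ^ 2 := by
        refine Finset.card_image_le.trans ?_
        rw [Finset.card_product, sq]
      exact_mod_cast h5
    exact h3.trans (pow_le_pow_left₀ (Nat.cast_nonneg _) hF 2)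
  · intro e he e' he'
    obtain ⟨c, hc, hc2⟩ := hEX e he
    obtain ⟨c', hc', hc2'⟩ := hEX e' he'
    obtain ⟨f, hf, w, hw, hfw⟩ := hcov c hc
    obtain ⟨f', hf', w', hw', hfw'⟩ := hcov c' hc'
    refine ⟨ψ (f - f'), Finset.mem_image.2 ⟨(f, f'), Finset.mk_mem_product hf hf', rfl⟩,
      w - w', ?_, (e - (e₀ + ψ c)) - (e' - (e₀ + ψ c')), (ann S).sub_mem hc2 hc2', ?_⟩
    · rw [hlat]
      have h3 := hB.sub (by norm_num) (by norm_num) hw hw'
      norm_num at h3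
      exact h3
    · change e - e' = ψ (f - f') + ψ (φ (w - w')) + _
      rw [hfw, hfw', map_sub, map_sub, map_sub, map_add, map_add]
      abel

end Pool.Agent.X164.PC
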